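import Mathlib

/-! Convergence in law and asymptotic independence give convergence in probability. -/

open MeasureTheory Filter Topology

namespace Pool.Agent.H59.Airy

variable {Ω : Type*} [MeasurableSpace Ω]

/-- the characteristic function of a random variable -/
private theorem cf_eq (P : Measure Ω) [IsProbabilityMeasure P] {X : Ω → ℝ} (hX : AEMeasurable X P)
    (u : ℝ) : charFun (P.map X) u =
      ∫ ω, Complex.exp (Complex.I * ((u * X ω : ℝ) : ℂ)) ∂P := by
  rw [charFun_apply_real, integral_map hX (by fun_prop)]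
  refine integral_congr_ae (Filter.Eventually.of_forall fun ω => ?_)
  change Complex.exp ((u : ℂ) * (X ω : ℂ) * Complex.I) = _
  congr 1
  push_cast
  ring

private theorem exp_int (P : Measure Ω) [IsProbabilityMeasure P] {X : Ω → ℝ}
    (hX : AEMeasurable X P) (u : ℝ) :
    Integrable (fun ω => Complex.exp (Complex.I * ((u * X ω : ℝ) : ℂ))) P := by
  refine Integrable.of_bound ?_ 1 (Filter.Eventually.of_forall fun ω => ?_)
  · have h1 : AEMeasurable (fun ω => Complex.exp (Complex.I * ((u * X ω : ℝ) : ℂ))) P := by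
      fun_prop
    exact h1.aestronglyMeasurable
  · rw [mul_comm, Complex.norm_exp_ofReal_mul_I]

/-- `1 - ψ` is small if its real part is. -/
private theorem norm_sq_le {z : ℂ} (hz : ‖z‖ ≤ 1) : ‖1 - z‖ ^ 2 ≤ 2 * (1 - z.re) := by
  have h1 : ‖z‖ ^ 2 ≤ 1 := by
    have := norm_nonneg z
    nlinarith
  rw [← Complex.normSq_eq_norm_sq, Complex.normSq_apply] at h1 ⊢
  simp only [Complex.sub_re, Complex.one_re, Complex.sub_im, Complex.one_im]
  nlinarith

/-- Proof. Let `φ u = ∫ exp(iuT)`, the characteristic function of `T`, `ψ k u` that of `D k`. By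
`hind` with `Z = cos(uT)` and `Z = sin(uT)`: `∫ exp(iu(D k + T)) - ψ k u * φ u → 0`; by `hlaw` (bounded
continuous test functions `cos`, `sin`) `∫ exp(iu(D k + T)) → φ u`. So `(ψ k u - 1) φ u → 0`, and
`ψ k u → 1` for all `u` near `0` (`φ` is continuous, `φ 0 = 1`). From
`1 - Re ψ (2u) ≤ 4 (1 - Re ψ u)` (`1 - cos 2t ≤ 4 (1 - cos t)`) and doubling, `Re ψ k u → 1`, so
`ψ k u → 1`, for every real `u` (`|1 - exp(it)|^2 = 2 (1 - cos t)`). By Lévy
(`ProbabilityMeasure.tendsto_iff_tendsto_charFun`) `D k → 0` in law, hence in probability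
(Portmanteau, or directly: `∫ min(|D k|,1) → 0`). -/
theorem law_imp_prob (P : Measure Ω) [IsProbabilityMeasure P] (D : ℕ → Ω → ℝ) (T : Ω → ℝ)
    (hD : ∀ k, AEMeasurable (D k) P) (hT : Measurable T)
    (hind : ∀ (u : ℝ) (Z : Ω → ℝ), Measurable Z → (∀ ω, |Z ω| ≤ 1) → Tendsto (fun k : ℕ =>
      (∫ ω, Complex.exp (Complex.I * ((u * D k ω : ℝ) : ℂ)) * ((Z ω : ℝ) : ℂ) ∂P) -
      (∫ ω, Complex.exp (Complex.I * ((u * D k ω : ℝ) : ℂ)) ∂P) * ((∫ ω, Z ω ∂P : ℝ) : ℂ))
        atTop (𝓝 0))
    (hlaw : TendstoInDistribution (fun k ω => D k ω + T ω) atTop T (fun _ => P) P) :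
    TendstoInMeasure P D atTop (fun _ => 0) := by
  have hTa : AEMeasurable T P := hT.aemeasurable
  set ψ : ℕ → ℝ → ℂ := fun k u => ∫ ω, Complex.exp (Complex.I * ((u * D k ω : ℝ) : ℂ)) ∂P with hψ
  set φ : ℝ → ℂ := fun u => ∫ ω, Complex.exp (Complex.I * ((u * T ω : ℝ) : ℂ)) ∂P with hφ
  have hψcf : ∀ k u, charFun (P.map (D k)) u = ψ k u := fun k u => cf_eq P (hD k) u
  have hφcf : ∀ u, charFun (P.map T) u = φ u := fun u => cf_eq P hTa u
  have hprob : ∀ k, IsProbabilityMeasure (P.map (D k)) := fun k =>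
    Measure.isProbabilityMeasure_map (hD k)
  have hprobT : IsProbabilityMeasure (P.map T) := Measure.isProbabilityMeasure_map hTa
  have hψn : ∀ k u, ‖ψ k u‖ ≤ 1 := by
    intro k u
    rw [← hψcf]
    have := hprob k
    exact norm_charFun_le_one u
  -- convergence of the characteristic functions of the sums
  have hA : ∀ u : ℝ, Tendsto (fun k => ∫ ω, Complex.exp (Complex.I *
      ((u * (D k ω + T ω) : ℝ) : ℂ)) ∂P) atTop (𝓝 (φ u)) := by
    intro u
    have h1 := (ProbabilityMeasure.tendsto_iff_tendsto_charFun.1 hlaw.tendsto) u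
    have h2 : ∀ k, charFun (P.map (fun ω => D k ω + T ω)) u =
        ∫ ω, Complex.exp (Complex.I * ((u * (D k ω + T ω) : ℝ) : ℂ)) ∂P := fun k =>
      cf_eq P ((hD k).add hTa) u
    have h3 : Tendsto (fun k => charFun (P.map (fun ω => D k ω + T ω)) u) atTop
        (𝓝 (charFun (P.map T) u)) := h1
    rw [hφcf] at h3
    exact h3.congr h2
  -- asymptotic independence
  have hB : ∀ u : ℝ, Tendsto (fun k => (∫ ω, Complex.exp (Complex.I *
      ((u * (D k ω + T ω) : ℝ) : ℂ)) ∂P) - ψ k u * φ u) atTop (𝓝 0) := by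
    intro u
    have mc : Measurable (fun ω => Real.cos (u * T ω)) := by fun_prop
    have ms : Measurable (fun ω => Real.sin (u * T ω)) := by fun_prop
    have h1 := hind u (fun ω => Real.cos (u * T ω)) mc (fun ω => Real.abs_cos_le_one _)
    have h2 := hind u (fun ω => Real.sin (u * T ω)) ms (fun ω => Real.abs_sin_le_one _)
    have ic : Integrable (fun ω => Real.cos (u * T ω)) P :=
      Integrable.of_bound mc.aestronglyMeasurable 1
        (Filter.Eventually.of_forall fun ω => by
          rw [Real.norm_eq_abs]; exact Real.abs_cos_le_one _)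
    have is : Integrable (fun ω => Real.sin (u * T ω)) P :=
      Integrable.of_bound ms.aestronglyMeasurable 1
        (Filter.Eventually.of_forall fun ω => by
          rw [Real.norm_eq_abs]; exact Real.abs_sin_le_one _)
    have h3 := h1.add (h2.const_mul Complex.I)
    rw [mul_zero, add_zero] at h3
    refine h3.congr fun k => ?_
    have iD := exp_int P (hD k) u
    have icD : Integrable (fun ω => Complex.exp (Complex.I * ((u * D k ω : ℝ) : ℂ)) *
        ((Real.cos (u * T ω) : ℝ) : ℂ)) P := by
      refine iD.mul_bdd (c := 1) ?_ (Filter.Eventually.of_forall fun ω => ?_)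
      · exact (Complex.measurable_ofReal.comp mc).aestronglyMeasurable
      · rw [Complex.norm_real, Real.norm_eq_abs]; exact Real.abs_cos_le_one _
    have isD : Integrable (fun ω => Complex.exp (Complex.I * ((u * D k ω : ℝ) : ℂ)) *
        ((Real.sin (u * T ω) : ℝ) : ℂ)) P := by
      refine iD.mul_bdd (c := 1) ?_ (Filter.Eventually.of_forall fun ω => ?_)
      · exact (Complex.measurable_ofReal.comp ms).aestronglyMeasurable
      · rw [Complex.norm_real, Real.norm_eq_abs]; exact Real.abs_sin_le_one _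
    have e1 : ∫ ω, Complex.exp (Complex.I * ((u * (D k ω + T ω) : ℝ) : ℂ)) ∂P =
        (∫ ω, Complex.exp (Complex.I * ((u * D k ω : ℝ) : ℂ)) *
          ((Real.cos (u * T ω) : ℝ) : ℂ) ∂P) +
        Complex.I * ∫ ω, Complex.exp (Complex.I * ((u * D k ω : ℝ) : ℂ)) *
          ((Real.sin (u * T ω) : ℝ) : ℂ) ∂P := by
      rw [← integral_const_mul, ← integral_add icD (isD.const_mul _)]
      refine integral_congr_ae (Filter.Eventually.of_forall fun ω => ?_)
      change Complex.exp (Complex.I * ((u * (D k ω + T ω) : ℝ) : ℂ)) = _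
      have e : Complex.I * ((u * (D k ω + T ω) : ℝ) : ℂ) =
          Complex.I * ((u * D k ω : ℝ) : ℂ) + ((u * T ω : ℝ) : ℂ) * Complex.I := by
        push_cast; ring
      rw [e, Complex.exp_add, Complex.exp_mul_I, ← Complex.ofReal_cos, ← Complex.ofReal_sin]
      ring
    have e2 : φ u = ((∫ ω, Real.cos (u * T ω) ∂P : ℝ) : ℂ) +
        Complex.I * ((∫ ω, Real.sin (u * T ω) ∂P : ℝ) : ℂ) := by
      have icC : Integrable (fun ω => ((Real.cos (u * T ω) : ℝ) : ℂ)) P := ic.ofReal
      have isC : Integrable (fun ω => ((Real.sin (u * T ω) : ℝ) : ℂ)) P := is.ofReal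
      rw [← integral_complex_ofReal, ← integral_complex_ofReal, ← integral_const_mul,
        ← integral_add icC (isC.const_mul _)]
      refine integral_congr_ae (Filter.Eventually.of_forall fun ω => ?_)
      change Complex.exp (Complex.I * ((u * T ω : ℝ) : ℂ)) = _
      rw [mul_comm, Complex.exp_mul_I, ← Complex.ofReal_cos, ← Complex.ofReal_sin]
      ring
    rw [e1, e2]
    ring
  -- `ψ k u → 1` where `φ u ≠ 0`
  have hC : ∀ u : ℝ, φ u ≠ 0 → Tendsto (fun k => ψ k u) atTop (𝓝 1) := by
    intro u hu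
    have h1 := (hA u).sub (hB u)
    rw [sub_zero] at h1
    have h2 : Tendsto (fun k => ψ k u * φ u) atTop (𝓝 (φ u)) :=
      h1.congr fun k => by ring
    have h3 := h2.div_const (φ u)
    rw [div_self hu] at h3
    exact h3.congr fun k => by field_simp
  have hφc : Continuous φ := by
    have h1 : Continuous (charFun (P.map T)) := continuous_charFun
    have h2 : charFun (P.map T) = φ := funext hφcf
    rwa [h2] at h1
  have hφ0 : φ 0 ≠ 0 := by
    rw [hφ]
    simp
  obtain ⟨δ, hδ, hδ'⟩ : ∃ δ > 0, ∀ u : ℝ, |u| < δ → φ u ≠ 0 := by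
    have h1 : ∀ᶠ u in 𝓝 (0 : ℝ), φ u ≠ 0 := hφc.continuousAt.eventually_ne hφ0
    rw [Metric.eventually_nhds_iff] at h1
    obtain ⟨δ, hδ, h2⟩ := h1
    exact ⟨δ, hδ, fun u hu => h2 (by rwa [Real.dist_eq, sub_zero])⟩
  -- real parts
  have hre : ∀ k u, 1 - (ψ k u).re = ∫ ω, (1 - Real.cos (u * D k ω)) ∂P := by
    intro k u
    have ic : Integrable (fun ω => Real.cos (u * D k ω)) P := by
      refine Integrable.of_bound ?_ 1 (Filter.Eventually.of_forall fun ω => ?_)
      · have : AEMeasurable (fun ω => Real.cos (u * D k ω)) P := by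
          have := hD k
          fun_prop
        exact this.aestronglyMeasurable
      · rw [Real.norm_eq_abs]; exact Real.abs_cos_le_one _
    rw [integral_sub (integrable_const _) ic]
    have h1 : (ψ k u).re = ∫ ω, Real.cos (u * D k ω) ∂P := by
      have h2 := integral_re (exp_int P (hD k) u)
      have h3 : (ψ k u).re = ∫ ω, (Complex.exp (Complex.I * ((u * D k ω : ℝ) : ℂ))).re ∂P :=
        h2.symm
      rw [h3]
      refine integral_congr_ae (Filter.Eventually.of_forall fun ω => ?_)
      change (Complex.exp (Complex.I * ((u * D k ω : ℝ) : ℂ))).re = _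
      rw [mul_comm, Complex.exp_ofReal_mul_I_re]
    rw [h1]
    simp
  have hdbl : ∀ k u, 1 - (ψ k (2 * u)).re ≤ 4 * (1 - (ψ k u).re) := by
    intro k u
    rw [hre, hre, ← integral_const_mul]
    have ic : ∀ v : ℝ, Integrable (fun ω => 1 - Real.cos (v * D k ω)) P := by
      intro v
      refine (integrable_const _).sub ?_
      refine Integrable.of_bound ?_ 1 (Filter.Eventually.of_forall fun ω => ?_)
      · have : AEMeasurable (fun ω => Real.cos (v * D k ω)) P := by
          have := hD k
          fun_prop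
        exact this.aestronglyMeasurable
      · rw [Real.norm_eq_abs]; exact Real.abs_cos_le_one _
    refine integral_mono (ic _) ((ic _).const_mul _) fun ω => ?_
    change 1 - Real.cos (2 * u * D k ω) ≤ 4 * (1 - Real.cos (u * D k ω))
    have h1 : 2 * u * D k ω = 2 * (u * D k ω) := by ring
    rw [h1, Real.cos_two_mul]
    nlinarith [sq_nonneg (1 - Real.cos (u * D k ω))]
  have hpos : ∀ k u, 0 ≤ 1 - (ψ k u).re := by
    intro k u
    have h1 := Complex.re_le_norm (ψ k u)
    have h2 := hψn k u
    linarith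
  have hE : ∀ (n : ℕ) (u : ℝ), |u| < 2 ^ n * δ →
      Tendsto (fun k => 1 - (ψ k u).re) atTop (𝓝 0) := by
    intro n
    induction n with
    | zero =>
      intro u hu
      rw [pow_zero, one_mul] at hu
      have h1 := hC u (hδ' u hu)
      have h2 := (Complex.continuous_re.tendsto (1 : ℂ)).comp h1
      have h3 := h2.const_sub 1
      simpa using h3
    | succ n ih =>
      intro u hu
      have h1 : |u / 2| < 2 ^ n * δ := by
        rw [abs_div, abs_of_pos (by norm_num : (0 : ℝ) < 2), div_lt_iff₀ (by norm_num)]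
        calc |u| < 2 ^ (n + 1) * δ := hu
          _ = 2 ^ n * δ * 2 := by ring
      have h2 := (ih (u / 2) h1).const_mul 4
      rw [mul_zero] at h2
      refine squeeze_zero (fun k => hpos k u) (fun k => ?_) h2
      have h3 := hdbl k (u / 2)
      have h4 : 2 * (u / 2) = u := by ring
      rwa [h4] at h3
  have hF : ∀ u : ℝ, Tendsto (fun k => 1 - ψ k u) atTop (𝓝 0) := by
    intro u
    obtain ⟨n, hn⟩ : ∃ n : ℕ, |u| < 2 ^ n * δ := by
      obtain ⟨n, hn⟩ := pow_unbounded_of_one_lt (|u| / δ) (by norm_num : (1 : ℝ) < 2)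
      exact ⟨n, by rwa [div_lt_iff₀ hδ] at hn⟩
    have h1 := (hE n u hn).const_mul 2
    rw [mul_zero] at h1
    have h2 : Tendsto (fun k => ‖1 - ψ k u‖ ^ 2) atTop (𝓝 0) :=
      squeeze_zero (fun k => by positivity) (fun k => norm_sq_le (hψn k u)) h1
    have h3 := h2.sqrt
    rw [Real.sqrt_zero] at h3
    rw [tendsto_zero_iff_norm_tendsto_zero]
    exact h3.congr fun k => Real.sqrt_sq (norm_nonneg _)
  -- conclusion
  rw [tendstoInMeasure_iff_measureReal_dist]
  intro ε hε
  set r : ℝ := ε / 2 with hr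
  have hr0 : 0 < r := by positivity
  have hint : Tendsto (fun k => ∫ t in (-2 * r⁻¹)..(2 * r⁻¹), (1 - charFun (P.map (D k)) t))
      atTop (𝓝 (∫ t in (-2 * r⁻¹)..(2 * r⁻¹), (0 : ℂ))) := by
    refine intervalIntegral.tendsto_integral_filter_of_dominated_convergence (fun _ => 2)
      (Filter.Eventually.of_forall fun k => ?_) (Filter.Eventually.of_forall fun k => ?_)
      (by simp) ?_
    · have := hprob k
      exact (measurable_const.sub measurable_charFun).aestronglyMeasurable
    · refine Filter.Eventually.of_forall fun t _ => ?_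
      have := hprob k
      exact norm_one_sub_charFun_le_two
    · refine Filter.Eventually.of_forall fun t _ => ?_
      refine (hF t).congr fun k => ?_
      rw [hψcf]
  rw [intervalIntegral.integral_zero] at hint
  have hlim : Tendsto (fun k => 2⁻¹ * r * ‖∫ t in (-2 * r⁻¹)..(2 * r⁻¹),
      (1 - charFun (P.map (D k)) t)‖) atTop (𝓝 0) := by
    have h1 := hint.norm.const_mul (2⁻¹ * r)
    rwa [norm_zero, mul_zero] at h1
  refine squeeze_zero (fun k => measureReal_nonneg) (fun k => ?_) hlim
  have := hprob k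
  have h1 := measureReal_abs_gt_le_integral_charFun (μ := P.map (D k)) hr0
  refine le_trans ?_ h1
  have hms : MeasurableSet {x : ℝ | r < |x|} :=
    measurableSet_lt measurable_const measurable_id.abs
  rw [map_measureReal_apply_of_aemeasurable (hD k) hms]
  refine measureReal_mono ?_
  intro ω hω
  have h2 : ε ≤ dist (D k ω) 0 := hω
  rw [Real.dist_eq, sub_zero] at h2
  change r < |D k ω|
  have : r < ε := by rw [hr]; linarith
  linarith

end Pool.Agent.H59.Airy
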